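import Pool.Agent.Helper10.RS.Goals

/-!
# Project RS, packet AALOW: the Bernoulli estimate
-/

set_option autoImplicit false

open Finset

namespace Pool.Agent.Helper41.RS

open Pool.Agent.Helper10.RS

theorem aa_nonneg' (l q : ℕ) (hl : 3 ≤ l) :
    0 < ∏ i ∈ Icc 1 q, (1 - 1 / ((l : ℚ) * i)) := by
  apply Finset.prod_pos
  intro i hi
  have h1 : 1 ≤ i := (Finset.mem_Icc.mp hi).1
  have h2 : (3 : ℚ) ≤ l := by exact_mod_cast hl
  have h3 : (1 : ℚ) ≤ i := by exact_mod_cast h1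
  have h4 : (1 : ℚ) < (l : ℚ) * i := by nlinarith
  rw [sub_pos, div_lt_one (by linarith)]
  exact h4

theorem bb_le (l : ℕ) (hl : 3 ≤ l) (q : ℕ) (hq : 1 ≤ q) :
    |∏ i ∈ Icc 1 q, (-(1 + (l : ℚ) * (i - 1)) / ((l : ℚ) * i))| ≤
      (∏ i ∈ Icc 1 q, (1 - 1 / ((l : ℚ) * i))) / ((l : ℚ) - 1) := by
  have h2 : (3 : ℚ) ≤ l := by exact_mod_cast hl
  induction q, hq using Nat.le_induction with
  | base =>
    simp only [Icc_self, prod_singleton, Nat.cast_one, sub_self, mul_zero, add_zero, mul_one]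
    rw [neg_div, abs_neg, abs_of_pos (by positivity)]
    rw [le_div_iff₀ (by linarith)]
    apply le_of_eq
    field_simp
  | succ q hq ih =>
    rw [Finset.prod_Icc_succ_top (by omega), Finset.prod_Icc_succ_top (by omega), abs_mul]
    have h3 : (1 : ℚ) ≤ q := by exact_mod_cast hq
    have h4 : |(-(1 + (l : ℚ) * (((q + 1 : ℕ) : ℚ) - 1)) / ((l : ℚ) * ((q + 1 : ℕ) : ℚ)))| ≤
        1 - 1 / ((l : ℚ) * ((q + 1 : ℕ) : ℚ)) := by
      push_cast
      have e1 : ((q : ℚ) + 1 - 1) = q := by ring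
      rw [e1, neg_div, abs_neg, abs_of_pos (by positivity)]
      have h5 : 0 < (l : ℚ) * ((q : ℚ) + 1) := by positivity
      rw [div_le_iff₀ h5, sub_mul, one_mul, one_div, inv_mul_cancel₀ h5.ne']
      nlinarith
    have h6 : 0 ≤ (1 : ℚ) - 1 / ((l : ℚ) * ((q + 1 : ℕ) : ℚ)) := (abs_nonneg _).trans h4
    calc _ ≤ ((∏ i ∈ Icc 1 q, (1 - 1 / ((l : ℚ) * i))) / ((l : ℚ) - 1)) *
          (1 - 1 / ((l : ℚ) * ((q + 1 : ℕ) : ℚ))) :=
          mul_le_mul ih h4 (abs_nonneg _) (div_nonneg (aa_nonneg' l q hl).le (by linarith))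
      _ = _ := by ring

theorem aa_ge (l : ℕ) (hl : 3 ≤ l) (q : ℕ) (hq : 1 ≤ q) :
    (1 : ℚ) / q ≤ ((∏ i ∈ Icc 1 q, (1 - 1 / ((l : ℚ) * i))) * (l / ((l : ℚ) - 1))) ^ l := by
  have h2 : (3 : ℚ) ≤ l := by exact_mod_cast hl
  have hl1 : (l : ℚ) - 1 ≠ 0 := by linarith
  induction q, hq using Nat.le_induction with
  | base =>
    simp only [Icc_self, prod_singleton, Nat.cast_one, mul_one]
    have : (1 - 1 / (l : ℚ)) * ((l : ℚ) / ((l : ℚ) - 1)) = 1 := by
      field_simp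
    rw [this, one_pow, div_one]
  | succ q hq ih =>
    rw [Finset.prod_Icc_succ_top (by omega)]
    have h3 : (1 : ℚ) ≤ q := by exact_mod_cast hq
    have hB := one_add_mul_le_pow (a := -(1 / ((l : ℚ) * ((q + 1 : ℕ) : ℚ)))) (by
      have h5 : (1 : ℚ) / ((l : ℚ) * ((q + 1 : ℕ) : ℚ)) ≤ 1 := by
        push_cast
        rw [div_le_one (by positivity)]
        nlinarith
      linarith) l
    have e1 : (1 : ℚ) + (l : ℚ) * -(1 / ((l : ℚ) * ((q + 1 : ℕ) : ℚ))) = (q : ℚ) / (q + 1) := by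
      push_cast
      field_simp
      ring
    rw [e1] at hB
    have e2 : ((∏ i ∈ Icc 1 q, (1 - 1 / ((l : ℚ) * i))) *
        (1 - 1 / ((l : ℚ) * ((q + 1 : ℕ) : ℚ))) * (l / ((l : ℚ) - 1))) ^ l =
        ((∏ i ∈ Icc 1 q, (1 - 1 / ((l : ℚ) * i))) * (l / ((l : ℚ) - 1))) ^ l *
        (1 + -(1 / ((l : ℚ) * ((q + 1 : ℕ) : ℚ)))) ^ l := by
      rw [← mul_pow]
      congr 1
      ring
    rw [e2]
    have e3 : (1 : ℚ) / ((q + 1 : ℕ) : ℚ) = (1 / q) * ((q : ℚ) / (q + 1)) := by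
      push_cast
      field_simp
    rw [e3]
    refine mul_le_mul ih hB (by positivity) ?_
    have h7 := aa_nonneg' l q hl
    have h8 : 0 < (l : ℚ) / ((l : ℚ) - 1) := div_pos (by linarith) (by linarith)
    positivity

/-- PACKET AALOW -/
theorem p_aalow : AALOW := by
  intro n l hl hl2 hln hn
  have hl3 : 3 ≤ l := by
    have := hl.two_le
    omega
  have h2 : (3 : ℚ) ≤ l := by exact_mod_cast hl3
  have hq1 : 1 ≤ n / l := Nat.div_pos hln (by omega)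
  have hqn : n / l < n := Nat.div_lt_self (by omega) (by omega)
  have hA := aa_nonneg' l (n / l) hl3
  have hbb : -((aa l n) / ((l : ℚ) - 1)) ≤ bb l n := by
    have h1 := bb_le l hl3 (n / l) hq1
    rw [bb]
    split_ifs with h
    · exact (abs_le.mp h1).1
    · have : 0 ≤ aa l n / ((l : ℚ) - 1) := div_nonneg hA.le (by linarith)
      linarith
  by_contra hcon
  push Not at hcon
  have hge := aa_ge l hl3 (n / l) hq1
  change (1 : ℚ) / ((n / l : ℕ) : ℚ) ≤ (aa l n * (l / ((l : ℚ) - 1))) ^ l at hge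
  have hA' : 0 < aa l n := hA
  have hl1 : 0 < (l : ℚ) - 1 := by linarith
  have hA1 : (aa l n * (l / ((l : ℚ) - 1))) * ((l : ℚ) - 2) ≤ 1 := by
    have h3 : (l : ℚ) * (aa l n + -(aa l n / ((l : ℚ) - 1))) ≤ 1 := by
      have : (l : ℚ) * (aa l n + -(aa l n / ((l : ℚ) - 1))) ≤ l * (aa l n + bb l n) := by
        apply mul_le_mul_of_nonneg_left _ (by linarith)
        linarith
      linarith
    have e : (aa l n * (l / ((l : ℚ) - 1))) * ((l : ℚ) - 2) =
        (l : ℚ) * (aa l n + -(aa l n / ((l : ℚ) - 1))) := by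
      field_simp
      ring
    rw [e]
    exact h3
  have hpos : 0 ≤ (aa l n * (l / ((l : ℚ) - 1))) * ((l : ℚ) - 2) := by
    apply mul_nonneg _ (by linarith)
    exact mul_nonneg hA'.le (div_nonneg (by linarith) hl1.le)
  have hp := pow_le_one₀ (n := l) hpos hA1
  rw [mul_pow] at hp
  have hl2' : (0 : ℚ) ≤ ((l : ℚ) - 2) ^ l := pow_nonneg (by linarith) l
  have h4 : (1 : ℚ) / ((n / l : ℕ) : ℚ) * ((l : ℚ) - 2) ^ l ≤ 1 :=
    (mul_le_mul_of_nonneg_right hge hl2').trans hp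
  have hqpos : (0 : ℚ) < ((n / l : ℕ) : ℚ) := by exact_mod_cast hq1
  have h5 : ((l : ℚ) - 2) ^ l ≤ ((n / l : ℕ) : ℚ) := by
    rw [one_div, inv_mul_le_iff₀ hqpos, mul_one] at h4
    exact h4
  have h6 : (((l - 2) ^ l : ℕ) : ℚ) ≤ ((n / l : ℕ) : ℚ) := by
    push_cast [Nat.cast_sub (show 2 ≤ l by omega)]
    push_cast at h5
    exact h5
  have h7 : (l - 2) ^ l ≤ n / l := by exact_mod_cast h6
  omega

end Pool.Agent.Helper41.RS
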